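import Mathlib
import Pool.Agent.Helper19.CP.All

/-!
# The number of birational parametrizations of a very general cubic hypersurface

Let `X = (F = 0)` be a cubic hypersurface of dimension `n ≥ 1` over the complex numbers such that the
coefficients of `F` are algebraically independent over the rational numbers (`X` is very general), and
let `K` be the field generated by these coefficients. If `X` is rational, then there are birational
maps from projective `n`-space to `X` given by `n + 2` forms of some degree `D` in `n + 1` parameters
with coefficients algebraic over `K`. We consider such parametrizations up to constant factors and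
linear changes of the parameters, and we prove: if the set of the classes of all of them, or of all of
them of some kind which is invariant under the automorphisms of `ℂ` over `K`, is finite, with `m`
elements, then

* `m` is even if `n` is even,
* `m` is divisible by three if `n + 1` is not divisible by three.

So for the problem (`n` even) `m` is always even, and it is divisible by six if `n` is `0` or `4`
modulo `6`, for example for cubic fourfolds. In particular `m ≠ 1`: there is no canonical birational
parametrization of a very general cubic hypersurface of even dimension, that is, no construction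
compatible with automorphisms of `ℂ` which produces a birational parametrization which is unique up to
linear changes of the parameters. The conjugates of every single parametrization over the algebraic
closure of `K` form finitely many classes, whose number is divisible by two or six as above. (For `n = 2`, `D = 3` and forms without a common factor the number
is `72`, a classical result which is not used and not proved here.)

Idea of the proof. Let `m` be prime to `p`, `p = 2` or `3`, `p` prime to `n + 1`. A Sylow subgroup
`P` of the Galois group `Gal (L / K)` of a field `L` over which all classes are defined fixes one of the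
classes, of the parametrization `G`, say. Then `G^σ` is a constant times `G ∘ φ_σ` with a linear map
`φ_σ` over `L` which is unique up to constants, because `G` is birational. This is a cocycle of the
`p`-group `P` with values in `PGL_{n+1}(L)`; its class in the Brauer group is killed by the order of
`P` and, by the determinant, by `n + 1`, so that it is trivial: by Hilbert's theorem 90 for
`GL_{n+1}` the parametrization `G` can be transformed into one over the fixed field `K''` of `P`,
whose degree over `K` is prime to `p`. For `p = 2` this contradicts the theorem of the starting files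
on fields of definition (`FieldOfDefinition`), for `p = 3` a generic cubic form has no zeros over
extensions of `K` of degree prime to three (proved here by `n + 2` discrete valuations).
-/

set_option autoImplicit false

namespace Pool.Agent.Results.MP_2619d0_ag.ParityOfParametrizations

open MvPolynomial

/-- all coefficients of `p` are in the subfield `K` -/
def Over {m : ℕ} (K : Subfield ℂ) (p : MvPolynomial (Fin m) ℂ) : Prop := ∀ α, p.coeff α ∈ K

/-- the algebraic closure of `K` in `ℂ` -/
noncomputable def Alg (K : Subfield ℂ) : Subfield ℂ := (algebraicClosure K ℂ).toSubfield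

/-- the polynomial `p (φ y)` in the variables `y`, for a matrix `φ` -/
noncomputable def subst {m : ℕ} (φ : Matrix (Fin m) (Fin m) ℂ) (p : MvPolynomial (Fin m) ℂ) :
    MvPolynomial (Fin m) ℂ := aeval (fun j => ∑ l, C (φ j l) * X l) p

/-- `n + 2` polynomials in `n + 1` variables -/
abbrev Tuple (n : ℕ) : Type := Fin (n + 2) → MvPolynomial (Fin (n + 1)) ℂ

/-- the field of rational functions in `m` variables -/
abbrev Rat (m : ℕ) : Type := FractionRing (MvPolynomial (Fin m) ℂ)

/-- the field generated over `ℂ` by all ratios `G i / G j` -/
noncomputable def ratios {n : ℕ} (G : Tuple n) : IntermediateField ℂ (Rat (n + 1)) :=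
  IntermediateField.adjoin ℂ {z | ∃ i j, z = algebraMap _ (Rat (n + 1)) (G i) /
    algebraMap _ (Rat (n + 1)) (G j)}

/-- The polynomials `G i` in `n + 1` variables are forms of degree `D` and give a birational map from
projective `n`-space to the hypersurface `F = 0`: `F` vanishes at `G`, every form vanishing at `G` is
divisible by `F` (the map is dominant), and all ratios of the parameters are rational functions of the
ratios `G i / G j` (it has a rational inverse). -/
def IsParam {n : ℕ} (F : MvPolynomial (Fin (n + 2)) ℂ) (D : ℕ) (G : Tuple n) : Prop :=
  (∀ i, (G i).IsHomogeneous D) ∧ aeval G F = 0 ∧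
  (∀ (e : ℕ) (H : MvPolynomial (Fin (n + 2)) ℂ), H.IsHomogeneous e → aeval G H = 0 → F ∣ H) ∧
  ∀ i j : Fin (n + 1), algebraMap (MvPolynomial (Fin (n + 1)) ℂ) (Rat (n + 1)) (X i) /
    algebraMap (MvPolynomial (Fin (n + 1)) ℂ) (Rat (n + 1)) (X j) ∈ ratios G

/-- `G'` arises from `G` by a linear change of the parameters and multiplication with a constant,
both with entries in `K` -/
def Equ {n : ℕ} (K : Subfield ℂ) (G G' : Tuple n) : Prop :=
  ∃ (c : ℂ) (φ : Matrix (Fin (n + 1)) (Fin (n + 1)) ℂ), c ∈ K ∧ (∀ i j, φ i j ∈ K) ∧ c ≠ 0 ∧
    φ.det ≠ 0 ∧ ∀ i, G' i = C c * subst φ (G i)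

/-- the set `Q` is stable under the automorphisms `τ` of the field `ℂ` which are the identity on `K`;
`τ` is applied to all coefficients -/
def Stable {n : ℕ} (K : Subfield ℂ) (Q : Set (Tuple n)) : Prop :=
  ∀ τ : ℂ ≃+* ℂ, (∀ x ∈ K, τ x = x) → ∀ G ∈ Q, (fun i => map (τ : ℂ →+* ℂ) (G i)) ∈ Q

/-- `Q` consists of exactly `m` classes up to constants and linear changes of the parameters with
entries algebraic over `K`: there are `m` elements `r j` of `Q` which are not equivalent to each other
and every element of `Q` is equivalent to one of them -/
def HasClasses {n : ℕ} (K : Subfield ℂ) (Q : Set (Tuple n)) (m : ℕ) : Prop :=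
  ∃ r : Fin m → Tuple n, (∀ j, r j ∈ Q) ∧ (∀ j j', Equ (Alg K) (r j) (r j') → j = j') ∧
    ∀ G ∈ Q, ∃ j, Equ (Alg K) (r j) G

/-- the field generated by the coefficients of `F` -/
noncomputable def coefField {m : ℕ} (F : MvPolynomial (Fin m) ℂ) : Subfield ℂ :=
  Subfield.closure (Set.range fun α => F.coeff α)

/-- `F` is a cubic form whose coefficients are algebraically independent over `ℚ` -/
def Generic {m : ℕ} (F : MvPolynomial (Fin m) ℂ) : Prop := F.IsHomogeneous 3 ∧
  AlgebraicIndependent ℚ (fun α : {α : Fin m →₀ ℕ // α.degree = 3} => F.coeff α.1)

/-- the conjugates of `G` over `K` (under the automorphisms `τ` of the field `ℂ` which are the identity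
on `K`; `τ` is applied to all coefficients) -/
def Conjugates {n : ℕ} (K : Subfield ℂ) (G : Tuple n) : Set (Tuple n) :=
  {G' | ∃ τ : ℂ ≃+* ℂ, (∀ x ∈ K, τ x = x) ∧ G' = fun i => map (τ : ℂ →+* ℂ) (G i)}

/-- the set of all birational parametrizations of `F = 0` by forms of degree `D` with coefficients
algebraic over the field generated by the coefficients of `F` -/
def AllParams {n : ℕ} (F : MvPolynomial (Fin (n + 2)) ℂ) (D : ℕ) : Set (Tuple n) :=
  {G | IsParam F D G ∧ ∀ i, Over (Alg (coefField F)) (G i)}

/-- **The number of birational parametrizations of a very general cubic hypersurface.** Let `F` be a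
cubic form in `n + 2` variables with coefficients which are algebraically independent over `ℚ`, and let
`K` be the field generated by them.
(1) Let `Q` be a set of birational parametrizations of the hypersurface `F = 0` by forms of degree `D`
with coefficients algebraic over `K`, which is stable under the automorphisms of `ℂ` over `K`. If `Q`
has exactly `m` classes up to constants and linear changes of the parameters, then `m` is even if `n` is
even, and `m` is divisible by three if `n + 1` is not.
(2) The set of all such parametrizations is stable (so (1) applies to it).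
(3) The conjugates over `K` of every single such parametrization have finitely many classes, and their
number `m > 0` is even if `n` is even, and divisible by three if `n + 1` is not. -/
theorem result (n : ℕ) (hn : 1 ≤ n) (F : MvPolynomial (Fin (n + 2)) ℂ) (hF : Generic F) (D : ℕ) :
    (∀ (Q : Set (Tuple n)) (m : ℕ), Q ⊆ AllParams F D → Stable (coefField F) Q →
      HasClasses (coefField F) Q m → (Even n → 2 ∣ m) ∧ (¬ 3 ∣ n + 1 → 3 ∣ m)) ∧
    Stable (coefField F) (AllParams F D) ∧
    ∀ G ∈ AllParams F D, ∃ m : ℕ, 0 < m ∧ HasClasses (coefField F) (Conjugates (coefField F) G) m ∧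
      (Even n → 2 ∣ m) ∧ (¬ 3 ∣ n + 1 → 3 ∣ m) := by
  have hparam : ∀ G : Tuple n, IsParam F D G ↔ Helper19.CP.IsParam F D G := fun G =>
    ⟨fun h => ⟨h.1, h.2.1, h.2.2.1, h.2.2.2⟩, fun h => ⟨h.hom, h.zero, h.dom, h.bir⟩⟩
  have hst : Stable (coefField F) (AllParams F D) := by
    intro τ hτ G hG
    have h := Helper19.CP.allParams_stable_all F D τ hτ G ⟨(hparam G).1 hG.1, hG.2⟩
    exact ⟨(hparam _).2 h.1, h.2⟩
  have h1 : ∀ (Q : Set (Tuple n)) (m : ℕ), Q ⊆ AllParams F D → Stable (coefField F) Q →
      HasClasses (coefField F) Q m → (Even n → 2 ∣ m) ∧ (¬ 3 ∣ n + 1 → 3 ∣ m) := by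
    rintro Q m hQ hst ⟨r, hr1, hr2, hr3⟩
    exact Helper19.CP.fin_all n D m hn F hF Q
      (fun G hG => ⟨(hparam G).1 (hQ hG).1, (hQ hG).2⟩) hst r ⟨hr1, hr2, hr3⟩
  refine ⟨h1, hst, fun G hG => ?_⟩
  obtain ⟨m, r, hr⟩ := Helper19.CP.exists_system (coefField F)
    (Helper19.CP.conjs_finite (K := coefField F) (G := G) hG.2)
  have hcl : HasClasses (coefField F) (Conjugates (coefField F) G) m :=
    ⟨r, hr.mem, hr.inj, hr.surj⟩
  have hsub : Conjugates (coefField F) G ⊆ AllParams F D := by
    rintro _ ⟨τ, hτ, rfl⟩
    exact hst τ hτ G hG
  refine ⟨m, ?_, hcl, h1 _ m hsub (Helper19.CP.conjs_stable (coefField F) G) hcl⟩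
  obtain ⟨j, -⟩ := hr.surj G ⟨RingEquiv.refl ℂ, fun x _ => rfl, by
    funext i
    ext α
    simp [Helper19.CP.conj, coeff_map]⟩
  exact lt_of_le_of_lt (Nat.zero_le _) j.2

end Pool.Agent.Results.MP_2619d0_ag.ParityOfParametrizations
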