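import Mathlib
import Pool.Agent.Helper50.CM.E

/-!
# Linear sections of a smooth cubic hypersurface through a moving linear subspace

Let `X = (F = 0)` be a smooth cubic hypersurface of dimension `n` (any one, not only a very general
one), let `M` be a field which contains `ℂ` and let `x` be a generic point of `X` over `M` such that
the degree of `M` over the function field of `X` is odd: for `M` the field of rational functions of a
rational variety, this is a dominant rational map of odd degree from this variety to `X`, for example
a birational parametrization. Let `Λ` be a linear subspace of `X` defined over `M` (a family of linear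
subspaces of `X` whose parameters are rational functions on the variety). Assume that `Λ` is of one
of the following kinds:

* `Λ` moves slowly: it is defined over a field of transcendence degree at most `m`, has dimension
  `P - 1`, and `n` is large with respect to `m` and `P` (for example, a point, `m = 0, 1, 2, 3`,
  `n ≥ 1, 4, 8, 14`; a line, `m = 0, 1, 2`, `n ≥ 4, 8, 14`; a plane, `m = 0, 1`, `n ≥ 8, 14`);
* all the points of `Λ` over `M` lie on subvarieties of `X` of dimension at most `m`, and
  `n ≥ 1, 4, 8, 14, 20, 36, …` for `m = 0, 1, 2, 3, 4, 5, …`;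
* `Λ` is a fixed linear subspace of `X`, of arbitrary dimension, and the projection from `Λ` has no
  rational section.

The projection from `Λ` is a fibration of `X` in quadrics, and the fibre which contains `x` has many
points over `M`. We prove:

(1) This fibration has no rational section, and no multisection of odd degree, over any line through
the image of `x`: for `v` outside of the span of `Λ` and `x`, the section of `X` by the span of `Λ` and
`x + τ v`, with an indeterminate `τ`, has no point outside of `Λ` over any extension of `M(τ)` of odd
degree.

(2) Let `L` be a subfield of `M` over which `Λ` is defined, let `t ∈ M` be transcendental over `L`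
and `M` of odd degree over `L(t)` (`M` is the function field of a family of curves over a base with
the function field `L`, and `t` gives a map of odd degree from the curves to the line; for `M = L(t)`
they are rational curves). Then the image of `x` under the projection from `Λ` is not a point
`u + t v` with `u`, `v` over `L`: a family of curves on `X` of odd degree over `X` is never of this
shape over lines (or, in the case `v = 0`, over points). For example no family of conics which meet
the lines of a one-dimensional family of lines of `X` has odd degree over `X`, if `n ≥ 8`.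

For fixed `Λ` and rational curves (2) was known (`SectionCriterion`, `SectionsOverLines` of the
starting files), for curves of arbitrary genus it was known for a fixed line (`CurvesOverLines`), and
for a point `Λ` which moves (conics through the point) see `ParityAlongCurves` and
`ChordsThroughSubvarieties`.

Idea of the proof. The section is given by a quadratic form over `M[τ]` with entries of degrees at
most `1`, `2` and `3`. Given a zero of degree `e ≥ 2`, its tangent line at `τ = 0` is a vector of degree
one, and the reflection of the zero in this vector is divisible by `τ⁴`; it gives a zero of degree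
`e - 1` (a descent in the style of Cassels). A zero of degree one is a line in `X` through another
point of the fibre of `x`; by the theorems on chords (starting files, project N122) this point is
again odd, and no line over `M` through an odd point lies in `X` (project LI). At `τ = 0` there is no
zero in `Λ`, because a chord through an odd point is not tangent at its other end (project T2). The
theorem of Springer gives the extensions of odd degree. For (2) the family is moved by `τ ↦ t + τ`.
-/

set_option autoImplicit false

namespace Pool.Agent.Results.MP_2619d0_ag.SectionsThroughMovingSubspaces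

open MvPolynomial

/-- `F` is the equation of a smooth cubic hypersurface of dimension `n`: a cubic form in `n + 2`
variables whose partial derivatives have no common zero besides the origin -/
def SmoothCubic {n : ℕ} (F : MvPolynomial (Fin (n + 2)) ℂ) : Prop :=
  F.IsHomogeneous 3 ∧ ∀ z : Fin (n + 2) → ℂ, (∀ i, eval z (pderiv i F) = 0) → z = 0

/-- `x` is a generic point of the hypersurface `F = 0` with coordinates in an extension field `M` of
the complex numbers: `F` vanishes at `x`, and every form vanishing at `x` is divisible by `F` -/
def GenericPoint {n : ℕ} {M : Type} [Field M] [Algebra ℂ M] (F : MvPolynomial (Fin (n + 2)) ℂ)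
    (x : Fin (n + 2) → M) : Prop :=
  aeval x F = 0 ∧ ∀ (e : ℕ) (H : MvPolynomial (Fin (n + 2)) ℂ), H.IsHomogeneous e →
    aeval x H = 0 → F ∣ H

/-- the field generated by the ratios of the coordinates of `x`; for a generic point of `X` it is
the function field of `X`, in general it is the function field of the closure of the point `x` -/
noncomputable def functionField {n : ℕ} {M : Type} [Field M] [Algebra ℂ M] (x : Fin (n + 2) → M) :
    IntermediateField ℂ M :=
  IntermediateField.adjoin ℂ {z | ∃ i j, z = x i / x j}

/-- `x` is a generic point of the hypersurface `F = 0`, and the field `M` has odd degree over the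
function field of the hypersurface -/
def OddPoint {n : ℕ} {M : Type} [Field M] [Algebra ℂ M] (F : MvPolynomial (Fin (n + 2)) ℂ)
    (x : Fin (n + 2) → M) : Prop :=
  GenericPoint F x ∧ Odd (Module.finrank (functionField x) M)

/-- the closure of the point `c` has dimension at most `m`: the transcendence degree over the complex
numbers of the field generated by the ratios of its coordinates is at most `m` -/
def DimLe {n : ℕ} {M : Type} [Field M] [Algebra ℂ M] (m : ℕ) (c : Fin (n + 2) → M) : Prop :=
  Algebra.trdeg ℂ (functionField c) ≤ m

/-- the bound for the dimension of the hypersurface: `1, 4, 8, 14, 20, 36, 68, …` -/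
def bound : ℕ → ℕ
  | 0 => 1
  | 1 => 4
  | 2 => 8
  | 3 => 14
  | 4 => 20
  | m + 5 => 2 ^ (m + 5) + 4

/-- the inequalities between `n`, `m` and `P` -/
def Cond (n m P : ℕ) : Prop :=
  2 ^ m * (P * (P + 3)) + 2 * (4 ^ m * P) + 2 * 6 ^ m < 2 * (2 ^ m * (n + 2)) + 2 * P + 2 * 3 ^ m ∨
  P * (P + 3) + 2 * (2 ^ m * P) < 2 * (n + 2)

/-- `n` is large with respect to `m` and `P`: the inequality holds for `(m, P)` and the condition
holds for `(m - 1, P)` and `(m - 1, P + 1)` -/
def Large (n : ℕ) : ℕ → ℕ → Prop
  | 0, P => Cond n 0 P
  | m + 1, P => Cond n (m + 1) P ∧ Large n m P ∧ Large n m (P + 1)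

/-- the linear subspace `Λ` (of dimension `P` as a vector space) moves slowly: it has a basis with
coordinates in a field of transcendence degree at most `m` over the complex numbers, and `n` is
large with respect to `m` and `P` -/
def MovesSlowly {n : ℕ} {M : Type} [Field M] [Algebra ℂ M]
    (Λ : Submodule M (Fin (n + 2) → M)) : Prop :=
  ∃ (m P : ℕ) (K : IntermediateField ℂ M) (l : Fin P → Fin (n + 2) → M), Large n m P ∧
    Algebra.trdeg ℂ K ≤ m ∧ (∀ i a, l i a ∈ K) ∧ LinearIndependent M l ∧
    Λ = Submodule.span M (Set.range l)

/-- all points of `Λ` over `M` lie on subvarieties of dimension at most `m`, and `n ≥ bound m` -/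
def HasSmallPoints {n : ℕ} {M : Type} [Field M] [Algebra ℂ M]
    (Λ : Submodule M (Fin (n + 2) → M)) : Prop :=
  ∃ m : ℕ, bound m ≤ n ∧ ∀ c ∈ Λ, DimLe m c

/-- the field of rational functions in `n` variables -/
abbrev Rat (n : ℕ) : Type := FractionRing (MvPolynomial (Fin n) ℂ)

/-- the projection from the span of the vectors `A l` has a rational section: there are rational
functions `w l` on the projective space of dimension `n + 1` such that the point
`z + ∑ w_l(z) A_l`, `z = (1, z_1, …, z_(n+1))`, lies on `F = 0` -/
def HasSection {n r : ℕ} (F : MvPolynomial (Fin (n + 2)) ℂ) (A : Fin r → Fin (n + 2) → ℂ) : Prop :=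
  ∃ w : Fin r → Rat (n + 1), aeval (fun i =>
    algebraMap (MvPolynomial (Fin (n + 1)) ℂ) (Rat (n + 1))
      ((Fin.cons 1 X : Fin (n + 2) → MvPolynomial (Fin (n + 1)) ℂ) i) +
      ∑ l, w l * algebraMap ℂ (Rat (n + 1)) (A l i)) F = 0

/-- `Λ` is the span of complex vectors `A l`, and the projection from it has no rational section -/
def FixedWithoutSection {n : ℕ} {M : Type} [Field M] [Algebra ℂ M]
    (F : MvPolynomial (Fin (n + 2)) ℂ) (Λ : Submodule M (Fin (n + 2) → M)) : Prop :=
  ∃ (r : ℕ) (A : Fin r → Fin (n + 2) → ℂ),
    Λ = Submodule.span M (Set.range fun l i => algebraMap ℂ M (A l i)) ∧ ¬ HasSection F A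

/-- the linear subspace spanned by `Λ` over an extension field `N` of `M` -/
def extend {n : ℕ} {M : Type} [Field M] (N : Type) [Field N] [Algebra M N]
    (Λ : Submodule M (Fin (n + 2) → M)) : Submodule N (Fin (n + 2) → N) :=
  Submodule.span N {y | ∃ c ∈ Λ, y = fun a => algebraMap M N (c a)}

/-- Over every line through the image of `x` the projection from `Λ` has no section of odd degree:
if `v` is not in the span of `Λ` and `x`, if `τ` is transcendental over `M` and `N` has odd degree
over `M(τ)`, then all points of `F = 0` over `N` in the span of `Λ` and `x + τ v` lie in `Λ`. -/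
def NoSections {n : ℕ} {M : Type} [Field M] [Algebra ℂ M] (F : MvPolynomial (Fin (n + 2)) ℂ)
    (Λ : Submodule M (Fin (n + 2) → M)) (x : Fin (n + 2) → M) : Prop :=
  ∀ v : Fin (n + 2) → M, v ∉ Λ ⊔ Submodule.span M {x} →
    ∀ (N : Type) [Field N] [Algebra ℂ N] [Algebra M N] [IsScalarTower ℂ M N] (τ : N),
      Transcendental M τ → Odd (Module.finrank (IntermediateField.adjoin M {τ}) N) →
      ∀ y : Fin (n + 2) → N, aeval y F = 0 →
        y ∈ extend N Λ ⊔ Submodule.span N
          {fun a => algebraMap M N (x a) + τ * algebraMap M N (v a)} → y ∈ extend N Λ

/-- `Λ` is spanned by vectors with coordinates in `L` -/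
def DefinedOver {n : ℕ} {M : Type} [Field M] [Algebra ℂ M] (L : IntermediateField ℂ M)
    (Λ : Submodule M (Fin (n + 2) → M)) : Prop :=
  Λ ≤ Submodule.span M {c | c ∈ Λ ∧ ∀ a, c a ∈ L}

/-- The point `x` does not come from a family of curves which are mapped to lines (or to points, in
the case `v = 0`) by the projection from `Λ`: if `Λ` is defined over the subfield `L` of `M`, if `t` is
transcendental over `L` and `M` has odd degree over `L(t)`, then `x` is not in the span of `Λ` and
`u + t v` with `u`, `v` over `L`. -/
def NoFamily {n : ℕ} {M : Type} [Field M] [Algebra ℂ M]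
    (Λ : Submodule M (Fin (n + 2) → M)) (x : Fin (n + 2) → M) : Prop :=
  ∀ (L : IntermediateField ℂ M) (t : M), DefinedOver L Λ → Transcendental L t →
    Odd (Module.finrank (IntermediateField.adjoin L {t}) M) →
    ∀ u v : Fin (n + 2) → M, (∀ a, u a ∈ L) → (∀ a, v a ∈ L) →
      x ∉ Λ ⊔ Submodule.span M {fun a => u a + t * v a}

theorem large_gd {n : ℕ} : ∀ (m P : ℕ), Large n m P → Pool.Agent.N122.Gd (n + 2) m P := by
  intro m
  induction m with
  | zero => exact fun P h => h
  | succ m ih => exact fun P h => ⟨h.1, ih P h.2.1, ih (P + 1) h.2.2⟩

theorem bound_eq (m : ℕ) : bound m = Pool.Agent.N122.dimBound m := by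
  match m with
  | 0 => rfl
  | 1 => rfl
  | 2 => rfl
  | 3 => rfl
  | 4 => rfl
  | m + 5 => rfl

theorem dep {n m : ℕ} {M : Type} [Field M] [Algebra ℂ M] {c : Fin (n + 2) → M} (h : DimLe m c) :
    ∀ y : Fin (m + 1) → M, (∀ i, y i ∈ Pool.Agent.TH314.PD.ratioField c) →
      ¬ AlgebraicIndependent ℂ y :=
  fun y hy => Pool.Agent.Helper50.CM.dep_of_trdeg (functionField c) h y hy

theorem closed {n : ℕ} {F : MvPolynomial (Fin (n + 2)) ℂ} (hF : SmoothCubic F) {M : Type} [Field M]
    [Algebra ℂ M] {Λ : Submodule M (Fin (n + 2) → M)} (hΛ : ∀ c ∈ Λ, aeval c F = 0)
    (h : MovesSlowly Λ ∨ HasSmallPoints Λ ∨ FixedWithoutSection F Λ) :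
    Pool.Agent.Helper50.CM.ClS F Λ := by
  rcases h with ⟨m, P, K, l, hL, hK, hl, hli, rfl⟩ | ⟨m, hn, hm⟩ | ⟨r, A, rfl, hA⟩
  · exact Pool.Agent.Helper50.CM.clS_of_gd (large_gd m P hL) hF.1 hF.2 K hK l hl hli hΛ
  · rw [bound_eq] at hn
    exact Pool.Agent.Helper50.CM.clS_of_small hn hF.1 hF.2 Λ hΛ fun c hc => dep (hm c hc)
  · have hA' : ∀ a : Fin r → ℂ, eval (fun i => ∑ l, a l * A l i) F = 0 := by
      intro a
      have h1 : (fun i => algebraMap ℂ M (∑ l, a l * A l i)) ∈
          Submodule.span M (Set.range fun l i => algebraMap ℂ M (A l i)) := by
        have h2 : (fun i => algebraMap ℂ M (∑ l, a l * A l i)) =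
            Pool.Agent.N122.lam (fun l i => algebraMap ℂ M (A l i))
              (fun l => algebraMap ℂ M (a l)) := by
          funext i
          simp only [Pool.Agent.N122.lam, map_sum, map_mul]
        rw [h2]
        exact Pool.Agent.Helper50.CM.lam_mem _ _
      have h3 := hΛ _ h1
      rw [← Function.comp_def (algebraMap ℂ M), aeval_algebraMap_apply] at h3
      have h4 := (map_eq_zero (algebraMap ℂ M)).1 h3
      rw [← h4, MvPolynomial.aeval_eq_eval]
    exact Pool.Agent.Helper50.CM.clS_of_fixed hF.1 hF.2 A hA' hA

/-- Let `X = (F = 0)` be a smooth cubic hypersurface of dimension `n`, let `Λ` be a linear subspace of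
`X` over an extension field `M` of the complex numbers which moves slowly, or has small points, or is
fixed and without rational sections of its projection, and let `x` be a generic point of `X` over `M`
such that `M` has odd degree over the function field of `X`. Then over every line through the image
of `x` the projection from `Λ` has no section of odd degree, and `x` does not come from a family of
curves which are mapped to lines by the projection from `Λ`. -/
theorem result (n : ℕ) (F : MvPolynomial (Fin (n + 2)) ℂ) (hF : SmoothCubic F) (M : Type) [Field M]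
    [Algebra ℂ M] (Λ : Submodule M (Fin (n + 2) → M)) (hΛ : ∀ c ∈ Λ, aeval c F = 0)
    (hs : MovesSlowly Λ ∨ HasSmallPoints Λ ∨ FixedWithoutSection F Λ)
    (x : Fin (n + 2) → M) (hx : OddPoint F x) : NoSections F Λ x ∧ NoFamily Λ x := by
  have hcl := closed hF hΛ hs
  refine ⟨?_, ?_⟩
  · intro v hv N _ _ _ _ τ hτ hN y hyF hy
    exact Pool.Agent.Helper50.CM.secS hF.1 hF.2 Λ hΛ hcl x hx.1 hx.2 v hv N τ hτ hN y hy hyF
  · intro L t hΛL ht hL u v hu hv hxm
    exact Pool.Agent.Helper50.CM.famS hF.1 hF.2 Λ hΛ hcl x hx.1 hx.2 L hΛL t ht hL u v hu hv hxm

end Pool.Agent.Results.MP_2619d0_ag.SectionsThroughMovingSubspaces
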